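import Pool.Agent.Helper20.EQ.St2

/-!
# Project EQ, module WAD: nested windows with density `δ` (after Helper3.RG.M_WA)
-/

set_option autoImplicit false

open MeasureTheory Set Filter Topology
open scoped ENNReal RealInnerProductSpace

namespace Pool.Agent.Helper4.EQ

open Pool.Agent.Helper20.RG Pool.Agent.Helper20.EQ
open Pool.Agent.Helper68.LM (Pl BB Bd Av HL ft fm DQ)

/-- dyadic squares are nested -/
theorem DQ_mono {j k : ℤ} (h : j ≤ k) (x : Pl) : DQ j x ⊆ DQ k x := by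
  intro z hz i
  have hz' := hz i
  obtain ⟨m, rfl⟩ : ∃ m : ℕ, k = j + m := ⟨(k - j).toNat, by omega⟩
  have key : ∀ t : ℝ, ⌊t / (2 : ℝ) ^ (j + (m : ℤ))⌋ = ⌊t / (2 : ℝ) ^ j⌋ / ((2 ^ m : ℕ) : ℤ) := by
    intro t
    have h2 : (2 : ℝ) ^ (j + (m : ℤ)) = (2 : ℝ) ^ j * ((2 ^ m : ℕ) : ℝ) := by
      rw [zpow_add₀ (by norm_num)]
      push_cast
      simp
    rw [h2, ← div_div]
    have := Int.floor_div_natCast (t / (2 : ℝ) ^ j) (2 ^ m)
    rw [this]
  rw [key, key, hz']

/-- the dyadic square of given index -/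
def QI (j : ℤ) (m : Fin 2 → ℤ) : Set Pl := {z | ∀ i, ⌊z i / (2 : ℝ) ^ j⌋ = m i}

theorem QI_meas (j : ℤ) (m : Fin 2 → ℤ) : MeasurableSet (QI j m) := by
  have h : QI j m = ⋂ i, {z : Pl | ⌊z i / (2 : ℝ) ^ j⌋ = m i} := by
    ext z
    simp [QI]
  rw [h]
  refine MeasurableSet.iInter (fun i => ?_)
  have hf : Measurable (fun z : Pl => ⌊z i / (2 : ℝ) ^ j⌋) := by
    refine Int.measurable_floor.comp ?_
    refine Measurable.div_const ?_ _
    exact (EuclideanSpace.proj (𝕜 := ℝ) i : Pl →L[ℝ] ℝ).continuous.measurable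
  exact hf (measurableSet_singleton (m i))

theorem QI_eq {j : ℤ} {m : Fin 2 → ℤ} {x : Pl} (hx : x ∈ QI j m) : QI j m = DQ j x := by
  ext z
  constructor
  · intro hz i
    rw [hz i, hx i]
  · intro hz i
    rw [hz i, hx i]

theorem QI_disj (j : ℤ) : Pairwise (Function.onFun Disjoint (fun m : Fin 2 → ℤ => QI j m)) := by
  intro m m' hmm
  rw [Function.onFun, Set.disjoint_left]
  intro z hz hz'
  exact hmm (funext fun i => by rw [← hz i, ← hz' i])

theorem QI_cover (j : ℤ) (z : Pl) : z ∈ QI j (fun i => ⌊z i / (2 : ℝ) ^ j⌋) := fun _ => rfl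

/-- one step -/
theorem step (δ : ℝ) (j : ℤ) (W V : Set Pl) (hW : ∀ x ∈ W, DQ j x ⊆ W)
    (hV : ∀ x : Pl, volume (V ∩ DQ j x) ≤ ENNReal.ofReal δ * volume (DQ j x)) :
    volume (W ∩ V) ≤ ENNReal.ofReal δ * volume W := by
  have hdich : ∀ m : Fin 2 → ℤ, W ∩ QI j m = ∅ ∨ ∃ x ∈ W, W ∩ QI j m = DQ j x ∧ QI j m = DQ j x := by
    intro m
    rcases Set.eq_empty_or_nonempty (W ∩ QI j m) with h | ⟨x, hxW, hxQ⟩
    · exact Or.inl h
    · refine Or.inr ⟨x, hxW, ?_, QI_eq hxQ⟩
      rw [QI_eq hxQ]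
      exact Set.inter_eq_right.mpr (hW x hxW)
  have hmeas : ∀ m, MeasurableSet (W ∩ QI j m) := by
    intro m
    rcases hdich m with h | ⟨x, -, h, h2⟩
    · rw [h]; exact MeasurableSet.empty
    · rw [h, ← h2]; exact QI_meas j m
  have hWeq : W = ⋃ m : Fin 2 → ℤ, W ∩ QI j m := by
    ext z
    simp only [Set.mem_iUnion, Set.mem_inter_iff]
    exact ⟨fun h => ⟨_, h, QI_cover j z⟩, fun ⟨_, h, _⟩ => h⟩
  have hvol : volume W = ∑' m : Fin 2 → ℤ, volume (W ∩ QI j m) := by
    conv_lhs => rw [hWeq]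
    refine measure_iUnion ?_ hmeas
    intro m m' hmm
    exact (QI_disj j hmm).mono Set.inter_subset_right Set.inter_subset_right
  have hsub : W ∩ V ⊆ ⋃ m : Fin 2 → ℤ, (W ∩ V) ∩ QI j m := by
    intro z hz
    simp only [Set.mem_iUnion]
    exact ⟨_, hz, QI_cover j z⟩
  calc volume (W ∩ V) ≤ volume (⋃ m : Fin 2 → ℤ, (W ∩ V) ∩ QI j m) := measure_mono hsub
    _ ≤ ∑' m : Fin 2 → ℤ, volume ((W ∩ V) ∩ QI j m) := measure_iUnion_le _
    _ ≤ ∑' m : Fin 2 → ℤ, ENNReal.ofReal δ * volume (W ∩ QI j m) := by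
        refine ENNReal.tsum_le_tsum (fun m => ?_)
        rcases hdich m with h | ⟨x, -, h, h2⟩
        · have : (W ∩ V) ∩ QI j m = ∅ := by
            rw [← Set.subset_empty_iff, ← h]
            intro z hz
            exact ⟨hz.1.1, hz.2⟩
          rw [this, measure_empty]
          exact zero_le
        · rw [h]
          refine le_trans (measure_mono ?_) (hV x)
          rw [← h2]
          intro z hz
          exact ⟨hz.1.2, hz.2⟩
    _ = ENNReal.ofReal δ * volume W := by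
        rw [ENNReal.tsum_mul_left, hvol]

theorem hWAD : StWAD := by
  intro n a γ V δ hn hδ h1 h2
  induction n, hn using Nat.le_induction with
  | base =>
    simp only [Nat.lt_one_iff, forall_eq, Nat.sub_self, pow_zero, ENNReal.ofReal_one, one_mul]
    exact le_of_eq rfl
  | succ k hk ih =>
    have ih' := ih (fun i hi => h1 i (by omega)) (fun i hi => h2 i (by omega))
    have hset : {x : Pl | ∀ i < k + 1, x ∈ V i} = {x | ∀ i < k, x ∈ V i} ∩ V k := by
      ext x
      simp only [Set.mem_ofPred_eq, Set.mem_inter_iff]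
      constructor
      · intro h
        exact ⟨fun i hi => h i (by omega), h k (by omega)⟩
      · rintro ⟨h, h'⟩ i hi
        rcases Nat.lt_succ_iff_lt_or_eq.mp hi with h3 | h3
        · exact h i h3
        · rw [h3]; exact h'
    rw [hset]
    have hst := step δ (a - (k : ℤ) * γ) {x | ∀ i < k, x ∈ V i} (V k) (by
      intro x hx z hz i hi
      refine h1 i (by omega) x (hx i hi) ?_
      refine DQ_mono ?_ x hz
      have h3 : ((i : ℤ) + 1) * γ ≤ (k : ℤ) * γ := by
        refine mul_le_mul_of_nonneg_right ?_ (by positivity)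
        omega
      omega) (h2 k (by omega))
    refine hst.trans ?_
    calc ENNReal.ofReal δ * volume {x | ∀ i < k, x ∈ V i}
        ≤ ENNReal.ofReal δ * (ENNReal.ofReal (δ ^ (k - 1)) * volume (V 0)) := by
          gcongr
      _ = ENNReal.ofReal (δ ^ (k + 1 - 1)) * volume (V 0) := by
          rw [← mul_assoc, ← ENNReal.ofReal_mul hδ]
          congr 2
          obtain ⟨l, rfl⟩ : ∃ l, k = l + 1 := ⟨k - 1, by omega⟩
          simp only [Nat.add_sub_cancel]
          ring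

end Pool.Agent.Helper4.EQ
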